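import Mathlib

/-!
Preliminaries: a counting lemma, openness of injectivity, vanishing orders of polynomials in a
finite-dimensional space at a general point.
-/

open Polynomial Finset

namespace Pool.Agent.Y910.P

/-- the number of nonzero columns to the left of `x` -/
def lam (c : ℕ → ℕ) (x : ℕ) : ℕ := ((range x).filter (fun y => c y ≠ 0)).card

lemma lam_zero (c : ℕ → ℕ) : lam c 0 = 0 := by simp [lam]

lemma lam_succ (c : ℕ → ℕ) (x : ℕ) : lam c (x + 1) = lam c x + if c x = 0 then 0 else 1 := by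
  rw [lam, lam, Finset.range_add_one, Finset.filter_insert]
  by_cases h : c x = 0
  · simp [h]
  · rw [if_pos h, if_neg h, Finset.card_insert_of_notMem (by simp)]

lemma lam_le (c : ℕ → ℕ) (x : ℕ) : lam c x ≤ x :=
  (Finset.card_filter_le _ _).trans (by simp)

/-- **The counting lemma.** One point of multiplicity `m` reduces the first columns. -/
lemma count {c c' : ℕ → ℕ} {m : ℕ} (h : ∀ x, c' x ≤ c x - (m - lam c x)) (z : ℕ) :
    ∃ s, s * (s + 1) + 2 * (s * (m - lam c z)) + 2 * ∑ x ∈ range z, c' x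
        ≤ 2 * ∑ x ∈ range z, c x ∧
      min m (lam c z) + lam c' z ≤ s + lam c z := by
  induction z with
  | zero =>
    refine ⟨0, by simp, ?_⟩
    rw [lam_zero, lam_zero]
    simp
  | succ z ih =>
    obtain ⟨s, h1, h2⟩ := ih
    have h3 := h z
    rw [Finset.sum_range_succ, Finset.sum_range_succ, lam_succ, lam_succ]
    obtain ⟨N, hN⟩ : ∃ N, N = ∑ x ∈ range z, c x := ⟨_, rfl⟩
    obtain ⟨N', hN'⟩ : ∃ N', N' = ∑ x ∈ range z, c' x := ⟨_, rfl⟩
    obtain ⟨l, hl⟩ : ∃ l, l = lam c z := ⟨_, rfl⟩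
    obtain ⟨l', hl'⟩ : ∃ l', l' = lam c' z := ⟨_, rfl⟩
    rw [← hN, ← hN', ← hl] at h1
    rw [← hl, ← hl'] at h2
    rw [← hl] at h3
    rw [← hN, ← hN', ← hl, ← hl']
    by_cases hc : c z = 0
    · have hc' : c' z = 0 := by omega
      refine ⟨s, ?_, ?_⟩
      · rw [if_pos hc, hc, hc']
        simpa using h1
      · rw [if_pos hc, if_pos hc']
        simpa using h2
    rw [if_neg hc]
    by_cases hm : m ≤ l
    · refine ⟨s, ?_, ?_⟩
      · have e1 : m - (l + 1) = 0 := by omega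
        have e2 : m - l = 0 := by omega
        rw [e2] at h1
        rw [e1]
        omega
      · split_ifs <;> omega
    push Not at hm
    obtain ⟨g, hg⟩ : ∃ g, m = l + 1 + g := ⟨m - (l + 1), by omega⟩
    have e1 : m - (l + 1) = g := by omega
    have e2 : m - l = g + 1 := by omega
    rw [e2] at h1 h3
    rw [e1]
    have e3 : s * (g + 1) = s * g + s := by ring
    rw [e3] at h1
    by_cases hc' : c' z = 0
    · refine ⟨s, ?_, ?_⟩
      · rw [hc']
        omega
      · rw [if_pos hc']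
        omega
    · refine ⟨s + 1, ?_, ?_⟩
      · have e4 : (s + 1) * (s + 1 + 1) = s * (s + 1) + 2 * s + 2 := by ring
        have e5 : (s + 1) * g = s * g + g := by ring
        rw [e4, e5]
        omega
      · rw [if_neg hc']
        omega

/-- openness of injectivity -/
theorem exists_inj {W : Type*} [AddCommGroup W] [Module ℂ W] [FiniteDimensional ℂ W]
    {ι : Type*} [Finite ι] (Φ : ℂ → W →ₗ[ℂ] (ι → ℂ))
    (hc : ∀ f i, Continuous fun s => Φ s f i) (h0 : ∀ f, Φ 0 f = 0 → f = 0) :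
    ∃ s : ℂ, s ≠ 0 ∧ ∀ f, Φ s f = 0 → f = 0 := by
  classical
  have := Fintype.ofFinite ι
  have hker : LinearMap.ker (Φ 0) = ⊥ := by
    rw [LinearMap.ker_eq_bot']
    exact h0
  obtain ⟨Ψ, hΨ⟩ := LinearMap.exists_leftInverse_of_injective (Φ 0) hker
  let b := Module.finBasis ℂ W
  obtain ⟨g, hg⟩ : ∃ g : ℂ → ℂ, ∀ s, g s = (LinearMap.toMatrix b b (Ψ ∘ₗ Φ s)).det :=
    ⟨_, fun _ => rfl⟩
  have hgc : Continuous g := by
    have h1 : g = fun s => (LinearMap.toMatrix b b (Ψ ∘ₗ Φ s)).det := funext hg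
    rw [h1]
    apply Continuous.matrix_det
    apply continuous_matrix
    intro i j
    have h2 : (fun s => LinearMap.toMatrix b b (Ψ ∘ₗ Φ s) i j)
        = fun s => ((b.coord i) ∘ₗ Ψ) (Φ s (b j)) := by
      funext s
      rw [LinearMap.toMatrix_apply]
      rfl
    rw [h2]
    have h3 : Continuous ((b.coord i) ∘ₗ Ψ) := LinearMap.continuous_of_finiteDimensional _
    exact h3.comp (continuous_pi (fun k => hc (b j) k))
  have hg0 : g 0 ≠ 0 := by
    rw [hg, hΨ, LinearMap.toMatrix_id, Matrix.det_one]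
    exact one_ne_zero
  have h1 : ∀ᶠ s in nhds (0 : ℂ), g s ≠ 0 := hgc.continuousAt.eventually_ne hg0
  have h2 : ∃ᶠ s in nhds (0 : ℂ), s ≠ 0 := by
    have h3 : ∃ᶠ s in nhdsWithin (0 : ℂ) {0}ᶜ, s ∈ ({0}ᶜ : Set ℂ) :=
      (eventually_mem_nhdsWithin).frequently
    exact h3.filter_mono nhdsWithin_le_nhds
  obtain ⟨s, hs0, hs⟩ := (h2.and_eventually h1).exists
  refine ⟨s, hs0, ?_⟩
  intro f hf
  have h3 : IsUnit (Ψ ∘ₗ Φ s) := by
    rw [LinearMap.isUnit_iff_isUnit_det, ← LinearMap.det_toMatrix b, ← hg]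
    exact IsUnit.mk0 _ hs
  have h4 := (Module.End.isUnit_iff _).1 h3
  apply h4.1
  rw [LinearMap.comp_apply, hf, map_zero, map_zero]

end Pool.Agent.Y910.P
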