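import Pool.Agent.Y910.P.P9

/-!
The real forms of the inequality.
-/

open Finset

namespace Pool.Agent.Y910.P

/-- from the integral inequality to the real one -/
theorem real_bound {n d N : ℕ} {m : Fin n → ℕ} (hn : 1 ≤ n) (hN : 1 ≤ N)
    (h : (∑ i, m i - d) * (∑ i, m i - d + n) ≤ 2 * n * (N - 1)) :
    (∑ i, (m i : ℝ)) < d + Real.sqrt (2 * n * N) := by
  obtain ⟨x, hx⟩ : ∃ x, x = ∑ i, m i - d := ⟨_, rfl⟩
  rw [← hx] at h
  have h1 : ∑ i, m i ≤ d + x := by omega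
  have h2 : (∑ i, (m i : ℝ)) ≤ d + x := by exact_mod_cast h1
  have h3 : x * x < 2 * n * N := by
    have h4 : x * x ≤ x * (x + n) := Nat.mul_le_mul_left _ (by omega)
    have h5 : 2 * n * (N - 1) < 2 * n * N := Nat.mul_lt_mul_of_pos_left (by omega) (by omega)
    omega
  have h4 : (x : ℝ) < Real.sqrt (2 * n * N) := by
    apply Real.lt_sqrt_of_sq_lt
    rw [sq]
    exact_mod_cast h3
  linarith

/-- Nagata's inequality -/
theorem nagata {n d N : ℕ} {m : Fin n → ℕ} (hn : 1 ≤ n) (hN : 1 ≤ N)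
    (h : (∑ i, m i - d) * (∑ i, m i - d + n) ≤ 2 * n * (N - 1))
    (hNd : 2 * (n : ℝ) * N ≤ (Real.sqrt (n : ℝ) - 1) ^ 2 * (d : ℝ) ^ 2) :
    (∑ i, (m i : ℝ)) < (d : ℝ) * Real.sqrt (n : ℝ) := by
  have h1 := real_bound hn hN h
  have h2 : (1 : ℝ) ≤ Real.sqrt (n : ℝ) := by
    rw [← Real.sqrt_one]
    apply Real.sqrt_le_sqrt
    exact_mod_cast hn
  have h3 : Real.sqrt (2 * n * N) ≤ (Real.sqrt (n : ℝ) - 1) * d := by
    apply Real.sqrt_le_iff.2
    refine ⟨mul_nonneg (by linarith) (Nat.cast_nonneg d), ?_⟩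
    rw [mul_pow]
    exact hNd
  linarith

end Pool.Agent.Y910.P
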