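import Pool.Agent.Y910.P.P1

/-!
Vanishing orders of polynomials in a finite-dimensional space at a general point.
-/

open Polynomial Finset Module

namespace Pool.Agent.Y910.P

/-- the elements of `V` vanishing to order at least `o` at `t` -/
noncomputable def van (V : Submodule ℂ ℂ[X]) (t : ℂ) (o : ℕ) : Submodule ℂ ℂ[X] where
  carrier := {f | f ∈ V ∧ ∀ b < o, (taylor t f).coeff b = 0}
  add_mem' := by
    rintro f g ⟨hf, hf'⟩ ⟨hg, hg'⟩
    refine ⟨V.add_mem hf hg, fun b hb => ?_⟩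
    rw [map_add, coeff_add, hf' b hb, hg' b hb, add_zero]
  zero_mem' := ⟨V.zero_mem, fun b _ => by rw [map_zero, coeff_zero]⟩
  smul_mem' := by
    rintro c f ⟨hf, hf'⟩
    refine ⟨V.smul_mem c hf, fun b hb => ?_⟩
    rw [map_smul, coeff_smul, hf' b hb, smul_zero]

lemma mem_van {V : Submodule ℂ ℂ[X]} {t : ℂ} {o : ℕ} {f : ℂ[X]} :
    f ∈ van V t o ↔ f ∈ V ∧ ∀ b < o, (taylor t f).coeff b = 0 := Iff.rfl

lemma van_le (V : Submodule ℂ ℂ[X]) (t : ℂ) (o : ℕ) : van V t o ≤ V := fun _ hf => hf.1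

lemma van_anti (V : Submodule ℂ ℂ[X]) (t : ℂ) {o o' : ℕ} (h : o ≤ o') : van V t o' ≤ van V t o :=
  fun _ hf => ⟨hf.1, fun b hb => hf.2 b (by omega)⟩

lemma dvd_of_mem_van {V : Submodule ℂ ℂ[X]} {t : ℂ} {o : ℕ} {f : ℂ[X]} (h : f ∈ van V t o) :
    (X - C t) ^ o ∣ f := by
  rw [X_sub_C_pow_dvd_iff, X_pow_dvd_iff]
  intro b hb
  have := h.2 b hb
  rwa [taylor_apply] at this

lemma finrank_van_succ (V : Submodule ℂ ℂ[X]) [FiniteDimensional ℂ V] (t : ℂ) (o : ℕ) :
    finrank ℂ (van V t o) ≤ finrank ℂ (van V t (o + 1)) + 1 := by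
  have hfd : FiniteDimensional ℂ (van V t o) := Submodule.finiteDimensional_of_le (van_le V t o)
  obtain ⟨φ, hφ⟩ : ∃ φ : van V t o →ₗ[ℂ] ℂ, ∀ f, φ f = (taylor t (f : ℂ[X])).coeff o :=
    ⟨((lcoeff ℂ o) ∘ₗ (taylor t)) ∘ₗ (van V t o).subtype, fun _ => rfl⟩
  have h1 : (LinearMap.ker φ).map (van V t o).subtype = van V t (o + 1) := by
    ext f
    rw [Submodule.mem_map]
    constructor
    · rintro ⟨g, hg, rfl⟩
      rw [LinearMap.mem_ker, hφ] at hg
      refine ⟨g.2.1, fun b hb => ?_⟩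
      rcases Nat.lt_succ_iff_lt_or_eq.1 hb with h | h
      · exact g.2.2 b h
      · rw [h]
        exact hg
    · intro hf
      refine ⟨⟨f, van_anti V t (Nat.le_succ o) hf⟩, ?_, rfl⟩
      rw [LinearMap.mem_ker, hφ]
      exact hf.2 o (by omega)
  have h2 := LinearMap.finrank_range_add_finrank_ker φ
  have h3 : finrank ℂ (LinearMap.range φ) ≤ 1 := by
    refine (Submodule.finrank_le _).trans ?_
    rw [finrank_self]
  have h4 : finrank ℂ (van V t (o + 1)) = finrank ℂ (LinearMap.ker φ) := by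
    rw [← h1]
    exact Submodule.finrank_map_subtype_eq _ _
  omega

lemma ne_zero_of_dvd {f f₀ : ℂ[X]} {t : ℂ} {k : ℕ} (hf : f ≠ 0) (hf₀ : f₀.eval t ≠ 0)
    (hdvd : (X - C t) ^ (k + 1) ∣ f) : derivative f * f₀ - f * derivative f₀ ≠ 0 := by
  intro h
  rw [sub_eq_zero] at h
  have hroot : f.IsRoot t := by
    rw [← dvd_iff_isRoot]
    exact (dvd_pow_self _ (Nat.succ_ne_zero k)).trans hdvd
  obtain ⟨r, hr⟩ : ∃ r, r = rootMultiplicity t f := ⟨_, rfl⟩
  have hr1 : 0 < r := by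
    rw [hr]
    exact (rootMultiplicity_pos hf).2 hroot
  have h1 : (X - C t) ^ r ∣ derivative f * f₀ := by
    rw [h, hr]
    exact (pow_rootMultiplicity_dvd f t).mul_right _
  have hcop : IsCoprime ((X - C t) ^ r) f₀ := by
    apply IsCoprime.pow_left
    rw [(irreducible_X_sub_C t).coprime_iff_not_dvd, dvd_iff_isRoot]
    exact hf₀
  have h2 : (X - C t) ^ r ∣ derivative f := hcop.dvd_of_dvd_mul_right h1
  have hder : derivative f ≠ 0 := by
    intro h0
    have h3 := derivative_eq_zero.1 h0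
    obtain ⟨a, ha⟩ := natDegree_eq_zero.1 h3
    rw [← ha] at hroot hf
    rw [IsRoot.def, eval_C] at hroot
    exact hf (by rw [hroot, C_0])
  have h3 := (le_rootMultiplicity_iff hder).2 h2
  rw [derivative_rootMultiplicity_of_root hroot, ← hr] at h3
  omega

theorem bad_finite (c : ℕ) : ∀ V : Submodule ℂ ℂ[X], FiniteDimensional ℂ V → finrank ℂ V ≤ c →
    {t : ℂ | ∃ f ∈ V, f ≠ 0 ∧ (X - C t) ^ c ∣ f}.Finite := by
  induction c with
  | zero =>
    intro V hV hc
    have h1 : V = ⊥ := Submodule.finrank_eq_zero.1 (Nat.le_zero.1 hc)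
    convert Set.finite_empty
    rw [Set.eq_empty_iff_forall_notMem]
    rintro t ⟨f, hf, hf0, _⟩
    rw [h1, Submodule.mem_bot] at hf
    exact hf0 hf
  | succ c ih =>
    intro V hV hc
    by_cases hbot : V = ⊥
    · convert Set.finite_empty
      rw [Set.eq_empty_iff_forall_notMem]
      rintro t ⟨f, hf, hf0, _⟩
      rw [hbot, Submodule.mem_bot] at hf
      exact hf0 hf
    obtain ⟨f₀, hf₀, hf₀0⟩ := (Submodule.ne_bot_iff V).1 hbot
    obtain ⟨δ, hδ⟩ : ∃ δ : ℂ[X] →ₗ[ℂ] ℂ[X], ∀ f, δ f = derivative f * f₀ - f * derivative f₀ :=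
      ⟨(LinearMap.mulRight ℂ f₀) ∘ₗ derivative - LinearMap.mulRight ℂ (derivative f₀),
        fun f => by simp⟩
    obtain ⟨δV, hδV⟩ : ∃ δV : V →ₗ[ℂ] ℂ[X], δV = δ ∘ₗ V.subtype := ⟨_, rfl⟩
    have h1 := LinearMap.finrank_range_add_finrank_ker δV
    have h2 : LinearMap.ker δV ≠ ⊥ := by
      rw [Submodule.ne_bot_iff]
      refine ⟨⟨f₀, hf₀⟩, ?_, ?_⟩
      · rw [LinearMap.mem_ker, hδV, LinearMap.comp_apply, Submodule.subtype_apply, hδ]
        ring
      · intro h
        exact hf₀0 (congrArg Subtype.val h)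
    have h3 : 1 ≤ finrank ℂ (LinearMap.ker δV) := Submodule.one_le_finrank_iff.2 h2
    have h4 : FiniteDimensional ℂ (LinearMap.range δV) := inferInstance
    have h5 := ih (LinearMap.range δV) h4 (by omega)
    refine (h5.union (f₀.roots.toFinset.finite_toSet)).subset ?_
    rintro t ⟨f, hf, hf0, hdvd⟩
    by_cases ht : f₀.eval t = 0
    · right
      rw [Finset.mem_coe, Multiset.mem_toFinset, mem_roots hf₀0]
      exact ht
    · left
      refine ⟨δ f, ⟨⟨f, hf⟩, by rw [hδV]; rfl⟩, ?_, ?_⟩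
      · rw [hδ]
        exact ne_zero_of_dvd hf0 ht hdvd
      · rw [hδ]
        have h6 : (X - C t) ^ c ∣ derivative f := by
          have := pow_sub_one_dvd_derivative_of_pow_dvd hdvd
          rwa [Nat.add_sub_cancel] at this
        exact dvd_sub (h6.mul_right _) (((pow_dvd_pow _ (Nat.le_succ c)).trans hdvd).mul_right _)

/-- at all but finitely many points the conditions are independent -/
theorem gen_finite (V : Submodule ℂ ℂ[X]) [FiniteDimensional ℂ V] :
    {t : ℂ | ¬ ∀ o, finrank ℂ (van V t o) ≤ finrank ℂ V - o}.Finite := by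
  refine (bad_finite (finrank ℂ V) V inferInstance le_rfl).subset ?_
  intro t ht
  by_contra hcon
  apply ht
  obtain ⟨c, hc⟩ : ∃ c, c = finrank ℂ V := ⟨_, rfl⟩
  rw [← hc] at hcon ⊢
  have h0 : van V t c = ⊥ := by
    rw [Submodule.eq_bot_iff]
    intro f hf
    by_contra hf0
    exact hcon ⟨f, hf.1, hf0, dvd_of_mem_van hf⟩
  have h1 : ∀ k ≤ c, finrank ℂ (van V t (c - k)) ≤ k := by
    intro k
    induction k with
    | zero =>
      intro _
      rw [Nat.sub_zero, h0, finrank_bot]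
    | succ k ih =>
      intro hk
      have h2 := finrank_van_succ V t (c - (k + 1))
      have h3 : c - (k + 1) + 1 = c - k := by omega
      rw [h3] at h2
      have h4 := ih (by omega)
      omega
  intro o
  by_cases ho : o ≤ c
  · have h2 := h1 (c - o) (by omega)
    have h3 : c - (c - o) = o := by omega
    rwa [h3] at h2
  · have h2 : van V t o = ⊥ := by
      rw [eq_bot_iff, ← h0]
      exact van_anti V t (by omega)
    rw [h2, finrank_bot]
    exact Nat.zero_le _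

end Pool.Agent.Y910.P
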