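import Pool.Agent.Y910.P.P2

/-!
Adding one point.
-/

open Polynomial Finset Module

namespace Pool.Agent.Y910.P

/-- the functionals attached to a point -/
noncomputable def cf (D : ℕ) (u t : ℂ) (Z : Finset ℕ) (b : ℕ) (f : ℕ → ℂ[X]) : ℂ :=
  ∑ x ∈ range D, (∏ z ∈ Z, ((x : ℂ) - z)) * u ^ x * (taylor t (f x)).coeff b

lemma cf_add (D : ℕ) (u t : ℂ) (Z : Finset ℕ) (b : ℕ) (f g : ℕ → ℂ[X]) :
    cf D u t Z b (f + g) = cf D u t Z b f + cf D u t Z b g := by
  rw [cf, cf, cf, ← Finset.sum_add_distrib]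
  apply Finset.sum_congr rfl
  intro x _
  rw [Pi.add_apply, map_add, coeff_add, mul_add]

lemma cf_smul (D : ℕ) (u t : ℂ) (Z : Finset ℕ) (b : ℕ) (c : ℂ) (f : ℕ → ℂ[X]) :
    cf D u t Z b (c • f) = c * cf D u t Z b f := by
  rw [cf, cf, Finset.mul_sum]
  apply Finset.sum_congr rfl
  intro x _
  rw [Pi.smul_apply, map_smul, coeff_smul, smul_eq_mul]
  ring

lemma cf_zero (D : ℕ) (u t : ℂ) (Z : Finset ℕ) (b : ℕ) : cf D u t Z b 0 = 0 := by
  have := cf_smul D u t Z b 0 0
  rwa [zero_smul, zero_mul] at this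

/-- multiplicity at least `m` at the point `(u, t)` -/
def Cnd (D : ℕ) (u t : ℂ) (m : ℕ) (f : ℕ → ℂ[X]) : Prop :=
  ∀ Z ⊆ range D, ∀ b, Z.card + b < m → cf D u t Z b f = 0

/-- the linear system `W` has no nonzero member with multiplicities `m i` at some points -/
def Kill (D : ℕ) (W : Submodule ℂ (ℕ → ℂ[X])) {n : ℕ} (m : Fin n → ℕ) : Prop :=
  ∃ p : Fin n → ℂ × ℂ, ∀ f ∈ W, (∀ i, Cnd D (p i).1 (p i).2 (m i) f) → f = 0

/-- sequences with entries in given spaces -/
noncomputable def tup (V : ℕ → Submodule ℂ ℂ[X]) : Submodule ℂ (ℕ → ℂ[X]) := Submodule.pi Set.univ V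

lemma mem_tup {V : ℕ → Submodule ℂ ℂ[X]} {f : ℕ → ℂ[X]} : f ∈ tup V ↔ ∀ x, f x ∈ V x := by
  simp [tup, Submodule.mem_pi]

lemma finite_tup {D : ℕ} {V : ℕ → Submodule ℂ ℂ[X]} (hfin : ∀ x, FiniteDimensional ℂ (V x))
    (hD : ∀ x, D ≤ x → V x = ⊥) : FiniteDimensional ℂ (tup V) := by
  obtain ⟨e, he⟩ : ∃ e : tup V →ₗ[ℂ] (∀ x : Fin D, V x), ∀ f (x : Fin D),
      ((e f x : V x) : ℂ[X]) = f.1 x :=
    ⟨{ toFun := fun f x => ⟨f.1 x, mem_tup.1 f.2 x⟩
       map_add' := fun f g => rfl
       map_smul' := fun c f => rfl }, fun f x => rfl⟩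
  apply FiniteDimensional.of_injective e
  intro f g hfg
  apply Subtype.ext
  funext x
  by_cases hx : x < D
  · have h1 := congrFun hfg ⟨x, hx⟩
    have h2 := congrArg Subtype.val h1
    rw [he, he] at h2
    exact h2
  · have h1 := mem_tup.1 f.2 x
    have h2 := mem_tup.1 g.2 x
    rw [hD x (by omega), Submodule.mem_bot] at h1 h2
    rw [h1, h2]

/-- **Adding a point.** -/
theorem step {D n : ℕ} {V : ℕ → Submodule ℂ ℂ[X]} (hfin : ∀ x, FiniteDimensional ℂ (V x))
    (hD : ∀ x, D ≤ x → V x = ⊥) (t : ℂ) (m₀ : ℕ) (m : Fin n → ℕ)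
    (h : Kill D (tup fun x => van (V x) t (m₀ - lam (fun y => finrank ℂ (V y)) x)) m) :
    Kill D (tup V) (Fin.cons m₀ m : Fin (n + 1) → ℕ) := by
  classical
  obtain ⟨p, hp⟩ := h
  obtain ⟨c, hc⟩ : ∃ c : ℕ → ℕ, c = fun y => finrank ℂ (V y) := ⟨_, rfl⟩
  rw [← hc] at hp
  have hbot : ∀ y, c y = 0 → V y = ⊥ := by
    intro y hy
    rw [hc] at hy
    exact Submodule.finrank_eq_zero.1 hy
  obtain ⟨Z, hZ⟩ : ∃ Z : ℕ → Finset ℕ, ∀ x, Z x = (range x).filter (fun y => c y ≠ 0) :=
    ⟨_, fun _ => rfl⟩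
  have hZc : ∀ x, (Z x).card = lam c x := fun x => by rw [hZ, lam]
  obtain ⟨W, hW⟩ : ∃ W : Submodule ℂ (ℕ → ℂ[X]), ∀ f, f ∈ W ↔
      f ∈ tup V ∧ ∀ i, Cnd D (p i).1 (p i).2 (m i) f := by
    refine ⟨{ carrier := {f | f ∈ tup V ∧ ∀ i, Cnd D (p i).1 (p i).2 (m i) f}
              add_mem' := ?_, zero_mem' := ?_, smul_mem' := ?_ }, fun _ => Iff.rfl⟩
    · rintro f g ⟨hf, hf'⟩ ⟨hg, hg'⟩
      refine ⟨Submodule.add_mem _ hf hg, fun i Z hZ b hb => ?_⟩
      rw [cf_add, hf' i Z hZ b hb, hg' i Z hZ b hb, add_zero]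
    · exact ⟨Submodule.zero_mem _, fun i Z hZ b hb => cf_zero _ _ _ _ _⟩
    · rintro a f ⟨hf, hf'⟩
      refine ⟨Submodule.smul_mem _ a hf, fun i Z hZ b hb => ?_⟩
      rw [cf_smul, hf' i Z hZ b hb, mul_zero]
  have hWV : W ≤ tup V := fun f hf => ((hW f).1 hf).1
  have hfd : FiniteDimensional ℂ (tup V) := finite_tup hfin hD
  have hfdW : FiniteDimensional ℂ W := Submodule.finiteDimensional_of_le hWV
  obtain ⟨Φ, hΦ⟩ : ∃ Φ : ℂ → W →ₗ[ℂ] (Fin D × Fin m₀ → ℂ), ∀ s f q, Φ s f q =
      if lam c q.1 + q.2 < m₀ then ∑ y ∈ range D,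
        (if (q.1 : ℕ) ≤ y then (∏ z ∈ Z q.1, ((y : ℂ) - z)) * s ^ (y - q.1) else 0)
          * (taylor t (f.1 y)).coeff q.2 else 0 := by
    refine ⟨fun s =>
      { toFun := fun f q => if lam c q.1 + q.2 < m₀ then ∑ y ∈ range D,
          (if (q.1 : ℕ) ≤ y then (∏ z ∈ Z q.1, ((y : ℂ) - z)) * s ^ (y - q.1) else 0)
            * (taylor t (f.1 y)).coeff q.2 else 0
        map_add' := ?_, map_smul' := ?_ }, fun s f q => rfl⟩
    · intro f g
      funext q
      rw [Pi.add_apply]
      split_ifs with hq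
      · rw [← Finset.sum_add_distrib]
        apply Finset.sum_congr rfl
        intro y _
        rw [Submodule.coe_add, Pi.add_apply, map_add, coeff_add, mul_add]
      · rw [add_zero]
    · intro a f
      funext q
      rw [Pi.smul_apply, RingHom.id_apply]
      split_ifs with hq
      · rw [Finset.smul_sum]
        apply Finset.sum_congr rfl
        intro y _
        rw [Submodule.coe_smul, Pi.smul_apply, map_smul, coeff_smul, smul_eq_mul, smul_eq_mul]
        ring
      · rw [smul_zero]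
  have hcont : ∀ f q, Continuous fun s => Φ s f q := by
    intro f q
    simp only [hΦ]
    split_ifs with hq
    · apply continuous_finsetSum
      intro y _
      split_ifs with hy
      · fun_prop
      · fun_prop
    · exact continuous_const
  have h0 : ∀ f, Φ 0 f = 0 → f = 0 := by
    intro f hf
    apply Subtype.ext
    have hfW := (hW f.1).1 f.2
    apply hp f.1 _ hfW.2
    rw [mem_tup]
    intro x
    refine ⟨mem_tup.1 hfW.1 x, fun b hb => ?_⟩
    by_cases hx : x < D
    · have h1 := congrFun hf (⟨x, hx⟩, ⟨b, by omega⟩)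
      rw [hΦ, Pi.zero_apply] at h1
      simp only at h1
      rw [if_pos (by omega), Finset.sum_eq_single x] at h1
      · rw [if_pos le_rfl, Nat.sub_self, pow_zero, mul_one] at h1
        rcases mul_eq_zero.1 h1 with h2 | h2
        · exfalso
          rw [Finset.prod_eq_zero_iff] at h2
          obtain ⟨z, hz, hz'⟩ := h2
          rw [hZ, Finset.mem_filter, Finset.mem_range] at hz
          rw [sub_eq_zero] at hz'
          have : x = z := by exact_mod_cast hz'
          omega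
        · exact h2
      · intro y _ hy
        split_ifs with hxy
        · rw [zero_pow (by omega), mul_zero, zero_mul]
        · rw [zero_mul]
      · intro h2
        exact absurd (Finset.mem_range.2 hx) h2
    · have h1 := mem_tup.1 hfW.1 x
      rw [hD x (by omega), Submodule.mem_bot] at h1
      rw [h1, map_zero, coeff_zero]
  obtain ⟨s, hs0, hs⟩ := exists_inj Φ hcont h0
  refine ⟨Fin.cons (s, t) p, ?_⟩
  intro f hf hcnd
  have hfW : f ∈ W := by
    rw [hW]
    refine ⟨hf, fun i => ?_⟩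
    have := hcnd i.succ
    simpa only [Fin.cons_succ] using this
  have h1 := hs ⟨f, hfW⟩ (by
    funext q
    rw [hΦ, Pi.zero_apply]
    split_ifs with hq
    · have h2 := hcnd 0 (Z q.1) (by
        rw [hZ]
        intro y hy
        rw [Finset.mem_filter, Finset.mem_range] at hy
        rw [Finset.mem_range]
        have := q.1.2
        omega) q.2 (by
        rw [hZc]
        simpa using hq)
      simp only [Fin.cons_zero] at h2
      have hsx : s ^ (q.1 : ℕ) ≠ 0 := pow_ne_zero _ hs0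
      apply mul_left_cancel₀ hsx
      rw [mul_zero]
      refine Eq.trans ?_ h2
      rw [cf, Finset.mul_sum]
      apply Finset.sum_congr rfl
      intro y _
      simp only
      by_cases hy : (q.1 : ℕ) ≤ y
      · rw [if_pos hy]
        have e : s ^ y = s ^ (q.1 : ℕ) * s ^ (y - q.1) := by
          rw [← pow_add]
          congr 1
          omega
        rw [e]
        ring
      · rw [if_neg hy, zero_mul, mul_zero]
        symm
        by_cases hcy : c y = 0
        · have h3 := mem_tup.1 hf y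
          rw [hbot y hcy, Submodule.mem_bot] at h3
          rw [h3, map_zero, coeff_zero, mul_zero]
        · rw [Finset.prod_eq_zero (i := y), zero_mul, zero_mul]
          · rw [hZ, Finset.mem_filter, Finset.mem_range]
            exact ⟨by omega, hcy⟩
          · rw [sub_self]
    · rfl)
  exact congrArg Subtype.val h1

end Pool.Agent.Y910.P
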