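import Pool.Agent.Y910.P.P3

/-!
The inequality for systems graded by the first exponent.
-/

open Polynomial Finset Module

namespace Pool.Agent.Y910.P

theorem graded {D : ℕ} (n : ℕ) : ∀ (m : Fin n → ℕ) (V : ℕ → Submodule ℂ ℂ[X]),
    (∀ x, FiniteDimensional ℂ (V x)) → (∀ x, D ≤ x → V x = ⊥) → ¬ Kill D (tup V) m →
    ∃ z < D, finrank ℂ (V z) ≠ 0 ∧ ∃ s : Fin n → ℕ,
      (∑ i, m i) + 1 ≤ (∑ i, s i) + lam (fun y => finrank ℂ (V y)) z + finrank ℂ (V z) ∧
      ∑ i, s i * (s i + 1) ≤ 2 * ∑ x ∈ range z, finrank ℂ (V x) := by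
  induction n with
  | zero =>
    intro m V hfin hD hK
    have h1 : ∃ f ∈ tup V, f ≠ 0 := by
      by_contra hcon
      push Not at hcon
      exact hK ⟨fun _ => 0, fun f hf _ => hcon f hf⟩
    obtain ⟨f, hf, hf0⟩ := h1
    obtain ⟨z, hz⟩ := Function.ne_iff.1 hf0
    have h2 : finrank ℂ (V z) ≠ 0 := by
      intro h
      have := hfin z
      have h3 : V z = ⊥ := Submodule.finrank_eq_zero.1 h
      have h4 := mem_tup.1 hf z
      rw [h3, Submodule.mem_bot] at h4
      exact hz h4
    refine ⟨z, ?_, h2, fun _ => 0, ?_, ?_⟩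
    · by_contra hcon
      push Not at hcon
      apply h2
      rw [hD z hcon, finrank_bot]
    · rw [Finset.univ_eq_empty, Finset.sum_empty, Finset.sum_empty]
      omega
    · rw [Finset.univ_eq_empty, Finset.sum_empty]
      exact Nat.zero_le _
  | succ n ih =>
    intro m V hfin hD hK
    obtain ⟨c, hc⟩ : ∃ c : ℕ → ℕ, c = fun y => finrank ℂ (V y) := ⟨_, rfl⟩
    have hcx : ∀ x, c x = finrank ℂ (V x) := fun x => by rw [hc]
    obtain ⟨t, ht⟩ : ∃ t : ℂ, ∀ x ∈ range D, ∀ o, finrank ℂ (van (V x) t o) ≤ c x - o := by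
      have h1 : (⋃ x ∈ range D, {t : ℂ | ¬ ∀ o, finrank ℂ (van (V x) t o) ≤ finrank ℂ (V x) - o}
          : Set ℂ).Finite := by
        apply Set.Finite.biUnion (Finset.finite_toSet (range D))
        intro x _
        have := hfin x
        exact gen_finite (V x)
      obtain ⟨t, ht⟩ := h1.infinite_compl.nonempty
      refine ⟨t, fun x hx => ?_⟩
      by_contra hcon
      apply ht
      rw [Set.mem_iUnion₂]
      refine ⟨x, hx, ?_⟩
      rw [hcx] at hcon
      exact hcon
    obtain ⟨V', hV'⟩ : ∃ V' : ℕ → Submodule ℂ ℂ[X], V' = fun x => van (V x) t (m 0 - lam c x) :=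
      ⟨_, rfl⟩
    have hV'x : ∀ x, V' x = van (V x) t (m 0 - lam c x) := fun x => by rw [hV']
    have hfin' : ∀ x, FiniteDimensional ℂ (V' x) := by
      intro x
      rw [hV'x]
      have := hfin x
      exact Submodule.finiteDimensional_of_le (van_le _ _ _)
    have hD' : ∀ x, D ≤ x → V' x = ⊥ := by
      intro x hx
      rw [hV'x, eq_bot_iff, ← hD x hx]
      exact van_le _ _ _
    have hK' : ¬ Kill D (tup V') (Fin.tail m) := by
      intro h
      apply hK
      have h1 := step hfin hD t (m 0) (Fin.tail m) (by rw [← hc, ← hV']; exact h)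
      rwa [Fin.cons_self_tail] at h1
    obtain ⟨z, hzD, hz0, s, hs1, hs2⟩ := ih (Fin.tail m) V' hfin' hD' hK'
    obtain ⟨c', hc'⟩ : ∃ c' : ℕ → ℕ, c' = fun y => finrank ℂ (V' y) := ⟨_, rfl⟩
    have hcx' : ∀ x, finrank ℂ (V' x) = c' x := fun x => by rw [hc']
    have hle : ∀ x, c' x ≤ c x - (m 0 - lam c x) := by
      intro x
      by_cases hx : x < D
      · rw [← hcx', hV'x]
        exact ht x (Finset.mem_range.2 hx) _
      · rw [← hcx', hD' x (by omega), finrank_bot]
        exact Nat.zero_le _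
    obtain ⟨s₀, h1, h2⟩ := count hle z
    rw [← hc'] at hs1
    simp only [hcx'] at hz0 hs1 hs2
    rw [← hc]
    simp only [← hcx]
    have h3 := hle z
    refine ⟨z, hzD, by omega, Fin.cons s₀ s, ?_, ?_⟩
    · rw [Fin.sum_univ_succ, Fin.sum_univ_succ]
      simp only [Fin.cons_zero, Fin.cons_succ]
      have h4 : ∑ i, Fin.tail m i = ∑ i : Fin n, m i.succ := rfl
      rw [h4] at hs1
      rcases le_total (m 0) (lam c z) with h5 | h5
      · rw [min_eq_left h5] at h2
        omega
      · rw [min_eq_right h5] at h2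
        omega
    · rw [Fin.sum_univ_succ]
      simp only [Fin.cons_zero, Fin.cons_succ]
      show s₀ * (s₀ + 1) + ∑ i, s i * (s i + 1) ≤ 2 * ∑ x ∈ range z, c x
      omega

end Pool.Agent.Y910.P
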