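import Pool.Agent.Y910.P.P4

/-!
Arbitrary linear systems.
-/

open Polynomial Finset Module

namespace Pool.Agent.Y910.P

/-- the elements of `W` whose entries at positions `< x` vanish -/
noncomputable def fil (W : Submodule ℂ (ℕ → ℂ[X])) (x : ℕ) : Submodule ℂ (ℕ → ℂ[X]) where
  carrier := {f | f ∈ W ∧ ∀ y < x, f y = 0}
  add_mem' := by
    rintro f g ⟨hf, hf'⟩ ⟨hg, hg'⟩
    refine ⟨W.add_mem hf hg, fun y hy => ?_⟩
    rw [Pi.add_apply, hf' y hy, hg' y hy, add_zero]
  zero_mem' := ⟨W.zero_mem, fun y _ => rfl⟩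
  smul_mem' := by
    rintro c f ⟨hf, hf'⟩
    refine ⟨W.smul_mem c hf, fun y hy => ?_⟩
    rw [Pi.smul_apply, hf' y hy, smul_zero]

lemma fil_le (W : Submodule ℂ (ℕ → ℂ[X])) (x : ℕ) : fil W x ≤ W := fun _ hf => hf.1

/-- the graded pieces -/
noncomputable def gr (W : Submodule ℂ (ℕ → ℂ[X])) (x : ℕ) : Submodule ℂ ℂ[X] :=
  (fil W x).map (LinearMap.proj x)

lemma mem_gr {W : Submodule ℂ (ℕ → ℂ[X])} {x : ℕ} {g : ℂ[X]} :
    g ∈ gr W x ↔ ∃ f ∈ W, (∀ y < x, f y = 0) ∧ f x = g := by
  rw [gr, Submodule.mem_map]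
  constructor
  · rintro ⟨f, hf, rfl⟩
    exact ⟨f, hf.1, hf.2, rfl⟩
  · rintro ⟨f, hf, hf', rfl⟩
    exact ⟨f, ⟨hf, hf'⟩, rfl⟩

lemma finite_gr (W : Submodule ℂ (ℕ → ℂ[X])) [FiniteDimensional ℂ W] (x : ℕ) :
    FiniteDimensional ℂ (gr W x) := by
  have h1 : FiniteDimensional ℂ (fil W x) := Submodule.finiteDimensional_of_le (fil_le W x)
  rw [gr]
  infer_instance

lemma finrank_fil (W : Submodule ℂ (ℕ → ℂ[X])) [FiniteDimensional ℂ W] (x : ℕ) :
    finrank ℂ (fil W x) = finrank ℂ (gr W x) + finrank ℂ (fil W (x + 1)) := by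
  have h1 : FiniteDimensional ℂ (fil W x) := Submodule.finiteDimensional_of_le (fil_le W x)
  obtain ⟨φ, hφ⟩ : ∃ φ : fil W x →ₗ[ℂ] ℂ[X], φ = (LinearMap.proj x) ∘ₗ (fil W x).subtype :=
    ⟨_, rfl⟩
  have h2 := LinearMap.finrank_range_add_finrank_ker φ
  have h3 : LinearMap.range φ = gr W x := by
    rw [hφ, LinearMap.range_comp, Submodule.range_subtype, gr]
  have h4 : (LinearMap.ker φ).map (fil W x).subtype = fil W (x + 1) := by
    ext f
    rw [Submodule.mem_map]
    constructor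
    · rintro ⟨g, hg, rfl⟩
      rw [LinearMap.mem_ker, hφ] at hg
      refine ⟨g.2.1, fun y hy => ?_⟩
      rcases Nat.lt_succ_iff_lt_or_eq.1 hy with h | h
      · exact g.2.2 y h
      · rw [h]
        exact hg
    · intro hf
      refine ⟨⟨f, hf.1, fun y hy => hf.2 y (by omega)⟩, ?_, rfl⟩
      rw [LinearMap.mem_ker, hφ]
      exact hf.2 x (by omega)
  have h5 : finrank ℂ (fil W (x + 1)) = finrank ℂ (LinearMap.ker φ) := by
    rw [← h4]
    exact Submodule.finrank_map_subtype_eq _ _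
  rw [h3] at h2
  omega

lemma fil_zero (W : Submodule ℂ (ℕ → ℂ[X])) : fil W 0 = W := by
  ext f
  exact ⟨fun h => h.1, fun h => ⟨h, fun y hy => absurd hy (Nat.not_lt_zero y)⟩⟩

lemma sum_finrank_gr (W : Submodule ℂ (ℕ → ℂ[X])) [FiniteDimensional ℂ W] (x : ℕ) :
    ∑ y ∈ range x, finrank ℂ (gr W y) + finrank ℂ (fil W x) = finrank ℂ W := by
  induction x with
  | zero => rw [Finset.sum_range_zero, zero_add, fil_zero]
  | succ x ih => rw [Finset.sum_range_succ, ← ih, finrank_fil W x]; ring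

/-- **Degeneration to a graded system.** -/
theorem kill_of_gr {D n : ℕ} {W : Submodule ℂ (ℕ → ℂ[X])} [FiniteDimensional ℂ W]
    (hD : ∀ f ∈ W, ∀ x, D ≤ x → f x = 0) {m : Fin n → ℕ} (h : Kill D (tup (gr W)) m) :
    Kill D W m := by
  classical
  obtain ⟨p, hp⟩ := h
  have hfin : ∀ x, FiniteDimensional ℂ (gr W x) := finite_gr W
  obtain ⟨c, hc⟩ : ∃ c : ℕ → ℕ, ∀ x, c x = finrank ℂ (gr W x) := ⟨_, fun _ => rfl⟩
  obtain ⟨B, hB⟩ : ∃ B : ∀ x : ℕ, Basis (Fin (c x)) ℂ (gr W x), True :=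
    ⟨fun x => (Module.finBasisOfFinrankEq ℂ (gr W x) (hc x).symm), trivial⟩
  have hlift : ∀ (x : ℕ) (k : Fin (c x)), ∃ f ∈ W, (∀ y < x, f y = 0) ∧ f x = (B x k : ℂ[X]) :=
    fun x k => mem_gr.1 (B x k).2
  choose e he1 he2 he3 using hlift
  -- the family spans
  obtain ⟨S, hS⟩ : ∃ S : Submodule ℂ (ℕ → ℂ[X]), S = Submodule.span ℂ
      (Set.range (fun j : (Σ x : Fin D, Fin (c x)) => e j.1 j.2)) := ⟨_, rfl⟩
  have hspan : ∀ k ≤ D, ∀ f ∈ W, (∀ y < D - k, f y = 0) → f ∈ S := by
    intro k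
    induction k with
    | zero =>
      intro _ f hf hf0
      have : f = 0 := by
        funext y
        by_cases hy : y < D
        · exact hf0 y (by omega)
        · exact hD f hf y (by omega)
      rw [this]
      exact S.zero_mem
    | succ k ih =>
      intro hk f hf hf0
      obtain ⟨x, hx⟩ : ∃ x, x = D - (k + 1) := ⟨_, rfl⟩
      have hxD : x < D := by omega
      have hfx : f x ∈ gr W x := mem_gr.2 ⟨f, hf, fun y hy => hf0 y (by omega), rfl⟩
      obtain ⟨a, ha⟩ : ∃ a : Fin (c x) → ℂ, f x = ∑ i, a i • (B x i : ℂ[X]) := by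
        refine ⟨fun i => (B x).repr ⟨f x, hfx⟩ i, ?_⟩
        have h1 : ((∑ i, (B x).repr ⟨f x, hfx⟩ i • B x i : gr W x) : ℂ[X]) = f x :=
          congrArg Subtype.val ((B x).sum_repr ⟨f x, hfx⟩)
        rw [Submodule.coe_sum] at h1
        exact h1.symm
      have h1 : ∑ i, a i • e x i ∈ S := by
        apply Submodule.sum_mem
        intro i _
        apply Submodule.smul_mem
        rw [hS]
        exact Submodule.subset_span ⟨⟨⟨x, hxD⟩, i⟩, rfl⟩
      have h1W : ∑ i, a i • e x i ∈ W :=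
        Submodule.sum_mem _ (fun i _ => Submodule.smul_mem _ _ (he1 x i))
      have h2 : f - ∑ i, a i • e x i ∈ S := by
        apply ih (by omega) _ (W.sub_mem hf h1W)
        intro y hy
        rw [Pi.sub_apply, Finset.sum_apply]
        simp only [Pi.smul_apply]
        by_cases hyx : y < x
        · rw [hf0 y (by omega), Finset.sum_eq_zero, sub_zero]
          intro i _
          rw [he2 x i y hyx, smul_zero]
        · have : y = x := by omega
          subst this
          rw [ha, sub_eq_zero]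
          apply Finset.sum_congr rfl
          intro i _
          rw [he3]
      have h3 := S.add_mem h2 h1
      rwa [sub_add_cancel] at h3
  -- the family of maps
  obtain ⟨Θ, hΘ⟩ : ∃ Θ : ℂ → ((Σ x : Fin D, Fin (c x)) → ℂ) → ℕ → ℂ[X], ∀ s a y,
      Θ s a y = ∑ j, ((if (j.1 : ℕ) ≤ y then s ^ (y - j.1) else 0) * a j) • e j.1 j.2 y :=
    ⟨fun s a y => _, fun _ _ _ => rfl⟩
  have hΘadd : ∀ s a a', Θ s (a + a') = Θ s a + Θ s a' := by
    intro s a a'
    funext y
    rw [Pi.add_apply, hΘ, hΘ, hΘ, ← Finset.sum_add_distrib]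
    apply Finset.sum_congr rfl
    intro j _
    rw [Pi.add_apply, mul_add, add_smul]
  have hΘsmul : ∀ s (r : ℂ) a, Θ s (r • a) = r • Θ s a := by
    intro s r a
    funext y
    rw [Pi.smul_apply, hΘ, hΘ, Finset.smul_sum]
    apply Finset.sum_congr rfl
    intro j _
    rw [Pi.smul_apply, smul_smul, smul_eq_mul]
    congr 1
    ring
  obtain ⟨M, hM⟩ : ∃ M, ∀ i, m i ≤ M := ⟨univ.sup m, fun i => Finset.le_sup (Finset.mem_univ i)⟩
  obtain ⟨Φ, hΦ⟩ : ∃ Φ : ℂ → ((Σ x : Fin D, Fin (c x)) → ℂ) →ₗ[ℂ]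
      (Fin n × ((range D).powerset : Finset (Finset ℕ)) × Fin M → ℂ), ∀ s a q, Φ s a q =
      if (q.2.1 : Finset ℕ).card + q.2.2 < m q.1 then
        cf D (p q.1).1 (p q.1).2 q.2.1 q.2.2 (Θ s a) else 0 := by
    refine ⟨fun s =>
      { toFun := fun a q => if (q.2.1 : Finset ℕ).card + q.2.2 < m q.1 then
          cf D (p q.1).1 (p q.1).2 q.2.1 q.2.2 (Θ s a) else 0
        map_add' := ?_, map_smul' := ?_ }, fun s a q => rfl⟩
    · intro a a'
      funext q
      rw [Pi.add_apply]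
      split_ifs with hq
      · rw [hΘadd, cf_add]
      · rw [add_zero]
    · intro r a
      funext q
      rw [Pi.smul_apply, RingHom.id_apply]
      split_ifs with hq
      · rw [hΘsmul, cf_smul, smul_eq_mul]
      · rw [smul_zero]
  have hcont : ∀ a q, Continuous fun s => Φ s a q := by
    intro a q
    simp only [hΦ]
    split_ifs with hq
    · simp only [cf, hΘ, map_sum, map_smul, finsetSum_coeff, coeff_smul, smul_eq_mul]
      apply continuous_finsetSum
      intro y _
      apply Continuous.mul continuous_const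
      apply continuous_finsetSum
      intro j _
      split_ifs <;> fun_prop
    · exact continuous_const
  have h0 : ∀ a, Φ 0 a = 0 → a = 0 := by
    intro a ha
    have hΘ0 : ∀ y, Θ 0 a y = ∑ j : (Σ x : Fin D, Fin (c x)),
        (if (j.1 : ℕ) = y then a j else 0) • e j.1 j.2 y := by
      intro y
      rw [hΘ]
      apply Finset.sum_congr rfl
      intro j _
      by_cases h1 : (j.1 : ℕ) = y
      · have e1 : y - (j.1 : ℕ) = 0 := by omega
        rw [if_pos h1, if_pos h1.le, e1, pow_zero, one_mul]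
      · rw [if_neg h1]
        by_cases h2 : (j.1 : ℕ) ≤ y
        · rw [if_pos h2, zero_pow (by omega), zero_mul]
        · rw [if_neg h2, zero_mul]
    have hmem : Θ 0 a ∈ tup (gr W) := by
      rw [mem_tup]
      intro y
      rw [hΘ0]
      apply Submodule.sum_mem
      intro j _
      split_ifs with h1
      · apply Submodule.smul_mem
        rw [← h1, he3]
        exact (B j.1 j.2).2
      · rw [zero_smul]
        exact Submodule.zero_mem _
    have hz : Θ 0 a = 0 := by
      apply hp _ hmem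
      intro i Z hZ b hb
      have h1 := congrFun ha (i, ⟨Z, Finset.mem_powerset.2 hZ⟩, ⟨b, by have := hM i; omega⟩)
      rw [hΦ, Pi.zero_apply] at h1
      simp only at h1
      rwa [if_pos hb] at h1
    funext j
    obtain ⟨x, k⟩ := j
    have h1 := congrFun hz x
    rw [hΘ0, Pi.zero_apply, Fintype.sum_sigma, Finset.sum_eq_single x] at h1
    · simp only [if_true] at h1
      have h2 : ∑ i, a ⟨x, i⟩ • B x i = 0 := by
        apply Subtype.ext
        rw [Submodule.coe_zero, ← h1, Submodule.coe_sum]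
        apply Finset.sum_congr rfl
        intro i _
        rw [Submodule.coe_smul, he3]
      exact (Fintype.linearIndependent_iff.1 (B x).linearIndependent) _ h2 k
    · intro y _ hy
      apply Finset.sum_eq_zero
      intro i _
      rw [if_neg, zero_smul]
      intro h
      exact hy (Fin.ext h)
    · intro h
      exact absurd (Finset.mem_univ _) h
  obtain ⟨s, hs0, hs⟩ := exists_inj Φ hcont h0
  refine ⟨fun i => (s * (p i).1, (p i).2), ?_⟩
  intro f hf hcnd
  have hfS : f ∈ S := hspan D le_rfl f hf (fun y hy => by omega)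
  rw [hS, Submodule.mem_span_range_iff_exists_fun] at hfS
  obtain ⟨a, ha⟩ := hfS
  have hΘf : ∀ y, Θ s (fun j => s ^ (j.1 : ℕ) * a j) y = s ^ y • f y := by
    intro y
    rw [hΘ, ← ha, Finset.sum_apply, Finset.smul_sum]
    apply Finset.sum_congr rfl
    intro j _
    rw [Pi.smul_apply, smul_smul]
    by_cases h1 : (j.1 : ℕ) ≤ y
    · rw [if_pos h1, ← mul_assoc, ← pow_add, Nat.sub_add_cancel h1]
    · rw [he2 j.1 j.2 y (by omega), smul_zero, smul_zero]
  have h1 := hs (fun j => s ^ (j.1 : ℕ) * a j) (by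
    funext q
    rw [hΦ, Pi.zero_apply]
    split_ifs with hq
    · rw [← hcnd q.1 q.2.1 (Finset.mem_powerset.1 q.2.1.2) q.2.2 hq, cf, cf]
      apply Finset.sum_congr rfl
      intro y _
      rw [hΘf, map_smul, coeff_smul, smul_eq_mul, mul_pow]
      ring
    · rfl)
  rw [← ha]
  apply Finset.sum_eq_zero
  intro j _
  have h2 := congrFun h1 j
  simp only [Pi.zero_apply] at h2
  rcases mul_eq_zero.1 h2 with h3 | h3
  · exact absurd h3 (pow_ne_zero _ hs0)
  · rw [h3, zero_smul]

end Pool.Agent.Y910.P
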