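import Pool.Agent.Y910.P.P5

/-!
The inequality for arbitrary linear systems of bounded degree.
-/

open Polynomial Finset Module

namespace Pool.Agent.Y910.P

lemma finrank_gr_le {W : Submodule ℂ (ℕ → ℂ[X])} {d : ℕ}
    (hdeg : ∀ f ∈ W, ∀ x, f x ≠ 0 → (f x).natDegree + x ≤ d) (z : ℕ) :
    finrank ℂ (gr W z) ≤ d + 1 - z := by
  have h1 : gr W z ≤ degreeLT ℂ (d + 1 - z) := by
    intro g hg
    obtain ⟨f, hf, _, rfl⟩ := mem_gr.1 hg
    rw [mem_degreeLT]
    by_cases h0 : f z = 0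
    · rw [h0, degree_zero]
      exact WithBot.bot_lt_coe _
    · have h2 := hdeg f hf z h0
      rw [degree_eq_natDegree h0]
      exact_mod_cast (by omega : (f z).natDegree < d + 1 - z)
  have h2 : finrank ℂ (degreeLT ℂ (d + 1 - z)) = d + 1 - z := by
    rw [(degreeLTEquiv ℂ (d + 1 - z)).finrank_eq, finrank_fin_fun]
  have h3 : FiniteDimensional ℂ (degreeLT ℂ (d + 1 - z)) :=
    (degreeLTEquiv ℂ (d + 1 - z)).symm.finiteDimensional
  rw [← h2]
  exact Submodule.finrank_mono h1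

/-- **The inequality for arbitrary linear systems.** -/
theorem system_bound {D n d : ℕ} {W : Submodule ℂ (ℕ → ℂ[X])} [FiniteDimensional ℂ W]
    (hD : ∀ f ∈ W, ∀ x, D ≤ x → f x = 0)
    (hdeg : ∀ f ∈ W, ∀ x, f x ≠ 0 → (f x).natDegree + x ≤ d) {m : Fin n → ℕ}
    (hK : ¬ Kill D W m) :
    (∑ i, m i - d) * (∑ i, m i - d + n) ≤ 2 * n * (finrank ℂ W - 1) := by
  have hK' : ¬ Kill D (tup (gr W)) m := fun h => hK (kill_of_gr hD h)
  obtain ⟨z, hzD, hz0, s, hs1, hs2⟩ := graded n m (gr W) (finite_gr W) (by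
    intro x hx
    rw [Submodule.eq_bot_iff]
    intro g hg
    obtain ⟨f, hf, _, rfl⟩ := mem_gr.1 hg
    exact hD f hf x hx) hK'
  have h1 := finrank_gr_le hdeg z
  have h2 := lam_le (fun y => finrank ℂ (gr W y)) z
  have h3 := sum_finrank_gr W (z + 1)
  rw [Finset.sum_range_succ] at h3
  obtain ⟨S, hS⟩ : ∃ S, S = ∑ i, s i := ⟨_, rfl⟩
  have h4 : ∑ i, m i - d ≤ S := by omega
  have h5 : S * S ≤ n * ∑ i, s i * s i := by
    have := sq_sum_le_card_mul_sum_sq (s := (univ : Finset (Fin n))) (f := s)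
    simp only [sq, Finset.card_univ, Fintype.card_fin] at this
    rw [hS]
    exact this
  have h6 : ∑ i, s i * (s i + 1) = ∑ i, s i * s i + S := by
    rw [hS, ← Finset.sum_add_distrib]
    apply Finset.sum_congr rfl
    intro i _
    ring
  calc (∑ i, m i - d) * (∑ i, m i - d + n) ≤ S * (S + n) :=
        Nat.mul_le_mul h4 (Nat.add_le_add_right h4 _)
    _ = S * S + n * S := by ring
    _ ≤ n * ∑ i, s i * s i + n * S := Nat.add_le_add_right h5 _
    _ = n * ∑ i, s i * (s i + 1) := by rw [h6]; ring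
    _ ≤ n * (2 * (finrank ℂ W - 1)) := Nat.mul_le_mul_left _ (by omega)
    _ = _ := by ring

end Pool.Agent.Y910.P
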