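import Pool.Agent.Y910.P.P6
import Pool.Agent.Y910.N.N4

/-!
Forms in three variables.
-/

open MvPolynomial Finset Module

namespace Pool.Agent.Y910.P

open Pool.Agent.Y910.N

/-- the columns of a polynomial in three variables -/
noncomputable def colm : MvPolynomial (Fin 3) ℂ →ₗ[ℂ] (ℕ → Polynomial ℂ) :=
  (basisMonomials (Fin 3) ℂ).constr ℂ
    (fun a => Pi.single (a 0) ((Polynomial.X : Polynomial ℂ) ^ (a 1)))

lemma colm_monomial (a : Fin 3 →₀ ℕ) (c : ℂ) : colm (monomial a c) =
    c • Pi.single (a 0) ((Polynomial.X : Polynomial ℂ) ^ (a 1)) := by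
  have h1 : (monomial a c : MvPolynomial (Fin 3) ℂ) = c • basisMonomials (Fin 3) ℂ a := by
    rw [coe_basisMonomials, smul_monomial, smul_eq_mul, mul_one]
  rw [h1, map_smul, colm, Basis.constr_basis]

lemma colm_eq (F : MvPolynomial (Fin 3) ℂ) : colm F = ∑ a ∈ F.support,
    coeff a F • Pi.single (a 0) ((Polynomial.X : Polynomial ℂ) ^ (a 1)) := by
  conv_lhs => rw [F.as_sum]
  rw [map_sum]
  exact Finset.sum_congr rfl (fun a _ => colm_monomial a _)

lemma colm_apply (F : MvPolynomial (Fin 3) ℂ) (x : ℕ) : colm F x = ∑ a ∈ F.support,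
    if a 0 = x then coeff a F • (Polynomial.X : Polynomial ℂ) ^ (a 1) else 0 := by
  rw [colm_eq, Finset.sum_apply]
  apply Finset.sum_congr rfl
  intro a _
  rw [Pi.smul_apply, Pi.single_apply]
  by_cases h : a 0 = x
  · rw [if_pos h, if_pos h.symm]
  · rw [if_neg h, if_neg (Ne.symm h), smul_zero]

lemma coeff_colm (F : MvPolynomial (Fin 3) ℂ) (x y : ℕ) : (colm F x).coeff y =
    ∑ a ∈ F.support, if a 0 = x ∧ a 1 = y then coeff a F else 0 := by
  rw [colm_apply, Polynomial.finsetSum_coeff]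
  apply Finset.sum_congr rfl
  intro a _
  by_cases h : a 0 = x
  · rw [if_pos h, Polynomial.coeff_smul, Polynomial.coeff_X_pow]
    by_cases h' : a 1 = y
    · rw [if_pos h'.symm, if_pos ⟨h, h'⟩, smul_eq_mul, mul_one]
    · rw [if_neg (Ne.symm h'), if_neg (fun h'' => h' h''.2), smul_zero]
  · rw [if_neg h, if_neg (fun h'' => h h''.1), Polynomial.coeff_zero]

lemma colm_inj {F : MvPolynomial (Fin 3) ℂ} {d : ℕ} (hF : F.IsHomogeneous d) (h : colm F = 0) :
    F = 0 := by
  ext a
  rw [coeff_zero]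
  by_contra ha
  have h1 : (colm F (a 0)).coeff (a 1) = coeff a F := by
    rw [coeff_colm, Finset.sum_eq_single a]
    · rw [if_pos ⟨rfl, rfl⟩]
    · intro b hb hba
      rw [if_neg]
      rintro ⟨h0, h1⟩
      apply hba
      have e1 : ∑ i, a i = d := by
        have := hF ha
        rw [← this, Finsupp.weight_apply, Finsupp.sum_fintype _ _ (by simp)]
        simp
      have e2 : ∑ i, b i = d := by
        have := hF (mem_support_iff.1 hb)
        rw [← this, Finsupp.weight_apply, Finsupp.sum_fintype _ _ (by simp)]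
        simp
      rw [Fin.sum_univ_three] at e1 e2
      ext i
      fin_cases i
      · exact h0
      · exact h1
      · show b 2 = a 2
        omega
    · intro h2
      exact absurd (mem_support_iff.2 ha) h2
  rw [h, Pi.zero_apply, Polynomial.coeff_zero] at h1
  exact ha h1.symm

/-- restriction to the line through `v` in the direction of the second coordinate -/
noncomputable def rl (v : Fin 3 → ℂ) : MvPolynomial (Fin 3) ℂ →ₐ[ℂ] Polynomial ℂ :=
  aeval (fun j : Fin 3 => (if j = 1 then Polynomial.X else 0) + Polynomial.C (v j))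

lemma coeff_rl_eq_zero {v : Fin 3 → ℂ} {G : MvPolynomial (Fin 3) ℂ} {m b : ℕ} (h : MG v G m)
    (hb : b < m) : (rl v G).coeff b = 0 := by
  obtain ⟨ψ, hψ⟩ : ∃ ψ : MvPolynomial (Fin 3) ℂ →ₐ[ℂ] Polynomial ℂ,
      ψ = aeval (fun j : Fin 3 => if j = 1 then Polynomial.X else 0) := ⟨_, rfl⟩
  have h1 : rl v G = ψ (tr v G) := by
    have h2 : rl v = ψ.comp (tr v) := by
      apply MvPolynomial.algHom_ext
      intro j
      rw [hψ]
      simp [rl, tr]
    rw [h2]
    rfl
  have h2 : (Polynomial.X : Polynomial ℂ) ^ m ∣ ψ (tr v G) := by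
    rw [(tr v G).as_sum, map_sum]
    apply Finset.dvd_sum
    intro s hs
    have h3 : m ≤ ∑ j, s j := by
      by_contra hcon
      push Not at hcon
      exact (mem_support_iff.1 hs) (h s hcon)
    rw [hψ, aeval_monomial]
    apply Dvd.dvd.mul_left
    rw [Finsupp.prod_fintype _ _ (by simp)]
    have h4 : (Polynomial.X : Polynomial ℂ) ^ (∑ j, s j) ∣
        ∏ j : Fin 3, (if j = 1 then (Polynomial.X : Polynomial ℂ) else 0) ^ s j := by
      rw [← Finset.prod_pow_eq_pow_sum]
      apply Finset.prod_dvd_prod_of_dvd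
      intro j _
      apply pow_dvd_pow_of_dvd
      split_ifs
      · exact dvd_rfl
      · exact dvd_zero _
    exact (pow_dvd_pow _ h3).trans h4
  rw [h1]
  exact Polynomial.X_pow_dvd_iff.1 h2 b hb

lemma coeff_rl (u t : ℂ) (G : MvPolynomial (Fin 3) ℂ) (b : ℕ) :
    (rl ![u, t, 1] G).coeff b = ∑ a ∈ G.support,
      u ^ a 0 * (coeff a G * ((Polynomial.X + Polynomial.C t) ^ a 1 : Polynomial ℂ).coeff b) := by
  conv_lhs => rw [G.as_sum]
  rw [map_sum, Polynomial.finsetSum_coeff]
  apply Finset.sum_congr rfl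
  intro a _
  rw [rl, aeval_monomial, Finsupp.prod_fintype _ _ (by simp), Fin.prod_univ_three]
  have e0 : ((if (0 : Fin 3) = 1 then (Polynomial.X : Polynomial ℂ) else 0)
      + Polynomial.C ((![u, t, 1] : Fin 3 → ℂ) 0)) = Polynomial.C u := by simp
  have e1 : ((if (1 : Fin 3) = 1 then (Polynomial.X : Polynomial ℂ) else 0)
      + Polynomial.C ((![u, t, 1] : Fin 3 → ℂ) 1)) = Polynomial.X + Polynomial.C t := by simp
  have e2 : ((if (2 : Fin 3) = 1 then (Polynomial.X : Polynomial ℂ) else 0)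
      + Polynomial.C ((![u, t, 1] : Fin 3 → ℂ) 2)) = 1 := by simp
  rw [e0, e1, e2, one_pow, mul_one, ← Polynomial.C_pow]
  have e3 : algebraMap ℂ (Polynomial ℂ) (coeff a G) = Polynomial.C (coeff a G) := rfl
  rw [e3, ← mul_assoc, ← Polynomial.C_mul, Polynomial.coeff_C_mul]
  ring

lemma fac_fl (Z : Finset ℕ) (a : Fin 3 →₀ ℕ) :
    (fac (fl 0 Z) a : ℂ) = ∏ z ∈ Z, ((a 0 : ℂ) - z) := by
  rw [fac, fl, List.map_map]
  have h1 : (List.map ((fun t : Fin 3 × ℕ => ((a t.1 : ℤ) - t.2)) ∘ fun c => ((0 : Fin 3), c))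
      Z.toList).prod = ∏ z ∈ Z, ((a 0 : ℤ) - z) := by
    rw [Finset.prod_map_toList]
    rfl
  rw [h1]
  push_cast
  rfl

/-- multiplicity in terms of columns -/
lemma cnd_of_MG {F : MvPolynomial (Fin 3) ℂ} {D m : ℕ} {u t : ℂ}
    (hD : ∀ a ∈ F.support, a 0 < D) (h : MG ![u, t, 1] F m) : Cnd D u t m (colm F) := by
  intro Z hZ b hb
  have h1 : MG ![u, t, 1] (N.ops (fl 0 Z) F) (m - Z.card) := by
    apply MG.ops
    rw [length_fl, Nat.sub_add_cancel (by omega)]
    exact h
  have h2 := coeff_rl_eq_zero h1 (b := b) (by omega)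
  rw [coeff_rl] at h2
  have h3 : ∑ a ∈ (N.ops (fl 0 Z) F).support, u ^ a 0 * (coeff a (N.ops (fl 0 Z) F)
      * ((Polynomial.X + Polynomial.C t) ^ a 1 : Polynomial ℂ).coeff b)
      = ∑ a ∈ F.support, u ^ a 0 * (coeff a (N.ops (fl 0 Z) F)
      * ((Polynomial.X + Polynomial.C t) ^ a 1 : Polynomial ℂ).coeff b) := by
    apply Finset.sum_subset
    · intro a ha
      rw [MvPolynomial.mem_support_iff, coeff_ops] at ha
      rw [MvPolynomial.mem_support_iff]
      exact right_ne_zero_of_mul ha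
    · intro a _ ha
      rw [notMem_support_iff.1 ha, zero_mul, mul_zero]
  rw [h3] at h2
  rw [← h2, cf]
  have h4 : ∀ x, (Polynomial.taylor t (colm F x)).coeff b = ∑ a ∈ F.support,
      if a 0 = x then coeff a F * ((Polynomial.X + Polynomial.C t) ^ a 1 : Polynomial ℂ).coeff b
        else 0 := by
    intro x
    rw [colm_apply, map_sum, Polynomial.finsetSum_coeff]
    apply Finset.sum_congr rfl
    intro a _
    split_ifs
    · rw [map_smul, Polynomial.coeff_smul, Polynomial.taylor_X_pow, smul_eq_mul]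
    · rw [map_zero, Polynomial.coeff_zero]
  simp only [h4, Finset.mul_sum]
  rw [Finset.sum_comm]
  apply Finset.sum_congr rfl
  intro a ha
  rw [Finset.sum_eq_single (a 0)]
  · rw [if_pos rfl, coeff_ops, fac_fl]
    ring
  · intro x _ hx
    rw [if_neg (Ne.symm hx), mul_zero]
  · intro h5
    exact absurd (Finset.mem_range.2 (hD a ha)) h5

end Pool.Agent.Y910.P
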