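import Pool.Agent.Y910.P.P7

/-!
General and very general points for arbitrary linear systems of plane curves.
-/

open MvPolynomial Finset Module

namespace Pool.Agent.Y910.P

open Pool.Agent.Y910.N

/-- the coefficients of the translates of a polynomial as polynomials in the points -/
noncomputable def mcw (n : ℕ) (i : Fin n) (s : Fin 3 →₀ ℕ) (F : MvPolynomial (Fin 3) ℂ) :
    MvPolynomial (Fin n × Fin 3) ℂ :=
  coeff s (aeval (fun j : Fin 3 => (X j + C (X (i, j)) :
    MvPolynomial (Fin 3) (MvPolynomial (Fin n × Fin 3) ℂ))) F)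

lemma eval_mcw {n : ℕ} (v : Fin n → Fin 3 → ℂ) (i : Fin n) (s : Fin 3 →₀ ℕ)
    (F : MvPolynomial (Fin 3) ℂ) :
    eval (fun q : Fin n × Fin 3 => v q.1 q.2) (mcw n i s F) = coeff s (tr (v i) F) := by
  rw [mcw, ← coeff_map]
  congr 1
  have h1 : (map (eval (fun q : Fin n × Fin 3 => v q.1 q.2))).comp
      (aeval (R := ℂ) (fun j : Fin 3 => (X j + C (X (i, j)) :
        MvPolynomial (Fin 3) (MvPolynomial (Fin n × Fin 3) ℂ))) :
        MvPolynomial (Fin 3) ℂ →+* MvPolynomial (Fin 3) (MvPolynomial (Fin n × Fin 3) ℂ))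
      = (tr (v i) : MvPolynomial (Fin 3) ℂ →+* MvPolynomial (Fin 3) ℂ) := by
    apply MvPolynomial.ringHom_ext
    · intro r
      simp [tr]
    · intro k
      simp [tr]
  exact congrArg (fun g : MvPolynomial (Fin 3) ℂ →+* MvPolynomial (Fin 3) ℂ => g F) h1

/-- **General points.** -/
theorem exists_genW {n : ℕ} (W : Submodule ℂ (MvPolynomial (Fin 3) ℂ)) [FiniteDimensional ℂ W]
    (m : Fin n → ℕ)
    (h : ∃ v : Fin n → Fin 3 → ℂ, ∀ F ∈ W, (∀ i, MG (v i) F (m i)) → F = 0) :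
    ∃ G : MvPolynomial (Fin n × Fin 3) ℂ, G ≠ 0 ∧ ∀ v : Fin n → Fin 3 → ℂ,
      eval (fun q : Fin n × Fin 3 => v q.1 q.2) G ≠ 0 →
      ∀ F ∈ W, (∀ i, MG (v i) F (m i)) → F = 0 := by
  classical
  obtain ⟨v₀, hv₀⟩ := h
  let B := Module.finBasis ℂ W
  obtain ⟨R, hR⟩ : ∃ R : Finset (Fin n × (Fin 3 →₀ ℕ)), ∀ i s, (i, s) ∈ R ↔ (∑ j, s j) < m i :=
    ⟨univ.biUnion (fun i => (rows (m i)).image (fun s => (i, s))), by
      intro i s
      simp [mem_rows]⟩
  obtain ⟨Mp, hMp⟩ : ∃ Mp : Matrix R (Fin (finrank ℂ W)) (MvPolynomial (Fin n × Fin 3) ℂ),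
      ∀ r a, Mp r a = mcw n r.1.1 r.1.2 (B a) := ⟨fun r a => mcw n r.1.1 r.1.2 (B a), fun _ _ => rfl⟩
  obtain ⟨Mv, hMv⟩ : ∃ Mv : (Fin n → Fin 3 → ℂ) → Matrix R (Fin (finrank ℂ W)) ℂ, ∀ v,
      Mv v = Mp.map (eval (fun q : Fin n × Fin 3 => v q.1 q.2)) := ⟨fun v => Mp.map _, fun _ => rfl⟩
  have hMve : ∀ v r a, Mv v r a = coeff r.1.2 (tr (v r.1.1) (B a)) := by
    intro v r a
    rw [hMv, Matrix.map_apply, hMp, eval_mcw]
  -- the conditions in terms of the matrix
  have hker : ∀ v (c : Fin (finrank ℂ W) → ℂ), ((∀ i, MG (v i) (∑ a, c a • (B a :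
      MvPolynomial (Fin 3) ℂ)) (m i)) ↔ (Mv v).mulVec c = 0) := by
    intro v c
    have hco : ∀ i s, coeff s (tr (v i) (∑ a, c a • (B a : MvPolynomial (Fin 3) ℂ)))
        = ∑ a, coeff s (tr (v i) (B a)) * c a := by
      intro i s
      rw [map_sum, coeff_sum]
      apply Finset.sum_congr rfl
      intro a _
      rw [map_smul, coeff_smul, smul_eq_mul, mul_comm]
    constructor
    · intro hm
      funext r
      rw [Matrix.mulVec, dotProduct]
      simp only [hMve, Pi.zero_apply]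
      have h1 := hm r.1.1 r.1.2 ((hR _ _).1 r.2)
      rwa [hco] at h1
    · intro hm i s hs
      have h1 := congrFun hm ⟨(i, s), (hR i s).2 hs⟩
      rw [Matrix.mulVec, dotProduct] at h1
      simp only [hMve, Pi.zero_apply] at h1
      rw [hco]
      exact h1
  have hzero : ∀ c : Fin (finrank ℂ W) → ℂ, ∑ a, c a • (B a : MvPolynomial (Fin 3) ℂ) = 0 →
      c = 0 := by
    intro c hc
    have h1 : ∑ a, c a • B a = 0 := by
      apply Subtype.ext
      rw [Submodule.coe_zero, ← hc, Submodule.coe_sum]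
      rfl
    funext a
    exact (Fintype.linearIndependent_iff.1 B.linearIndependent) _ h1 a
  have hrep : ∀ F ∈ W, ∃ c : Fin (finrank ℂ W) → ℂ,
      F = ∑ a, c a • (B a : MvPolynomial (Fin 3) ℂ) := by
    intro F hF
    refine ⟨fun a => B.repr ⟨F, hF⟩ a, ?_⟩
    have h1 : ((∑ a, B.repr ⟨F, hF⟩ a • B a : W) : MvPolynomial (Fin 3) ℂ) = F :=
      congrArg Subtype.val (B.sum_repr ⟨F, hF⟩)
    rw [Submodule.coe_sum] at h1
    exact h1.symm
  have hmemW : ∀ c : Fin (finrank ℂ W) → ℂ, ∑ a, c a • (B a : MvPolynomial (Fin 3) ℂ) ∈ W :=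
    fun c => Submodule.sum_mem _ (fun a _ => Submodule.smul_mem _ _ (B a).2)
  -- a left inverse at `v₀`
  have hinj : Function.Injective (Matrix.mulVecLin (Mv v₀)) := by
    rw [← LinearMap.ker_eq_bot, LinearMap.ker_eq_bot']
    intro c hc
    exact hzero c (hv₀ _ (hmemW c) ((hker v₀ c).2 hc))
  obtain ⟨g, hg⟩ := LinearMap.exists_leftInverse_of_injective _ (LinearMap.ker_eq_bot.2 hinj)
  obtain ⟨L, hL⟩ : ∃ L : Matrix (Fin (finrank ℂ W)) R ℂ, L = LinearMap.toMatrix' g := ⟨_, rfl⟩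
  have hLM : L * Mv v₀ = 1 := by
    have h1 := congrArg LinearMap.toMatrix' hg
    rw [LinearMap.toMatrix'_comp, ← Matrix.toLin'_apply', LinearMap.toMatrix'_toLin',
      LinearMap.toMatrix'_id, ← hL] at h1
    exact h1
  have hev : ∀ v, eval (fun q : Fin n × Fin 3 => v q.1 q.2)
      ((L.map (C : ℂ →+* MvPolynomial (Fin n × Fin 3) ℂ)) * Mp).det = (L * Mv v).det := by
    intro v
    rw [RingHom.map_det, RingHom.mapMatrix_apply, Matrix.map_mul, hMv]
    congr 2
    ext a r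
    simp
  refine ⟨((L.map (C : ℂ →+* MvPolynomial (Fin n × Fin 3) ℂ)) * Mp).det, ?_, ?_⟩
  · intro h0
    have h1 := hev v₀
    rw [h0, map_zero, hLM, Matrix.det_one] at h1
    exact zero_ne_one h1
  · intro v hv F hF hm
    rw [hev] at hv
    obtain ⟨c, rfl⟩ := hrep F hF
    have h1 := (hker v c).1 hm
    have h2 : (L * Mv v).mulVec c = 0 := by
      rw [← Matrix.mulVec_mulVec, h1, Matrix.mulVec_zero]
    have h3 := Matrix.eq_zero_of_mulVec_eq_zero hv h2
    rw [h3]
    simp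

lemma deg_of_mem {F : MvPolynomial (Fin 3) ℂ} {d : ℕ} (hF : F.IsHomogeneous d)
    {a : Fin 3 →₀ ℕ} (ha : a ∈ F.support) : a 0 + a 1 + a 2 = d := by
  have := hF (MvPolynomial.mem_support_iff.1 ha)
  rw [← this, Finsupp.weight_apply, Finsupp.sum_fintype _ _ (by simp), Fin.sum_univ_three]
  simp

lemma finite_forms (d : ℕ) : FiniteDimensional ℂ (homogeneousSubmodule (Fin 3) ℂ d) := by
  obtain ⟨e, he⟩ : ∃ e : homogeneousSubmodule (Fin 3) ℂ d →ₗ[ℂ]
      (Fin (d + 1) × Fin (d + 1) → ℂ), ∀ F q, e F q = (colm F.1 q.1).coeff q.2 :=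
    ⟨{ toFun := fun F q => (colm F.1 q.1).coeff q.2
       map_add' := fun F G => by
        funext q
        simp
       map_smul' := fun c F => by
        funext q
        simp }, fun F q => rfl⟩
  apply FiniteDimensional.of_injective e
  rw [← LinearMap.ker_eq_bot, LinearMap.ker_eq_bot']
  intro F hF
  apply Subtype.ext
  have hFd : F.1.IsHomogeneous d := (mem_homogeneousSubmodule d F.1).1 F.2
  apply colm_inj hFd
  funext x
  ext y
  rw [Pi.zero_apply, Polynomial.coeff_zero]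
  by_cases hxy : x ≤ d ∧ y ≤ d
  · have h1 := congrFun hF (⟨x, by omega⟩, ⟨y, by omega⟩)
    rw [he] at h1
    exact h1
  · rw [coeff_colm]
    apply Finset.sum_eq_zero
    intro a ha
    have := deg_of_mem hFd ha
    rw [if_neg]
    omega

/-- **The inequality for linear systems of plane curves**: a configuration. -/
theorem forms {n d : ℕ} {W : Submodule ℂ (MvPolynomial (Fin 3) ℂ)}
    (hW : W ≤ homogeneousSubmodule (Fin 3) ℂ d) (m : Fin n → ℕ)
    (h : 2 * n * (finrank ℂ W - 1) < (∑ i, m i - d) * (∑ i, m i - d + n)) :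
    ∃ v : Fin n → Fin 3 → ℂ, ∀ F ∈ W, (∀ i, MG (v i) F (m i)) → F = 0 := by
  have hfd : FiniteDimensional ℂ (homogeneousSubmodule (Fin 3) ℂ d) := finite_forms d
  have hfW : FiniteDimensional ℂ W := Submodule.finiteDimensional_of_le hW
  have hhom : ∀ F ∈ W, F.IsHomogeneous d := fun F hF => (mem_homogeneousSubmodule d F).1 (hW hF)
  obtain ⟨W', hW'⟩ : ∃ W' : Submodule ℂ (ℕ → Polynomial ℂ), W' = W.map colm := ⟨_, rfl⟩
  have hfW' : FiniteDimensional ℂ W' := by
    rw [hW']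
    infer_instance
  have hrank : finrank ℂ W' ≤ finrank ℂ W := by
    rw [hW']
    exact Submodule.finrank_map_le _ _
  by_contra hcon
  have hK : ¬ Kill (d + 1) W' m := by
    rintro ⟨p, hp⟩
    apply hcon
    refine ⟨fun i => ![(p i).1, (p i).2, 1], fun F hF hm => ?_⟩
    apply colm_inj (hhom F hF)
    apply hp _ (by rw [hW']; exact Submodule.mem_map_of_mem hF)
    intro i
    apply cnd_of_MG _ (hm i)
    intro a ha
    have := deg_of_mem (hhom F hF) ha
    omega
  have h1 := system_bound (D := d + 1) (d := d) (W := W') (by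
    rw [hW']
    rintro _ ⟨F, hF, rfl⟩ x hx
    rw [colm_apply]
    apply Finset.sum_eq_zero
    intro a ha
    have := deg_of_mem (hhom F hF) ha
    rw [if_neg (by omega)]) (by
    rw [hW']
    rintro _ ⟨F, hF, rfl⟩ x hx
    have h2 : (colm F x).natDegree ∈ (colm F x).support := Polynomial.natDegree_mem_support_of_nonzero hx
    rw [Polynomial.mem_support_iff, coeff_colm] at h2
    obtain ⟨a, ha, ha'⟩ := Finset.exists_ne_zero_of_sum_ne_zero h2
    have h3 : a 0 = x ∧ a 1 = (colm F x).natDegree := by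
      by_contra h4
      rw [if_neg h4] at ha'
      exact ha' rfl
    have := deg_of_mem (hhom F hF) ha
    omega) hK
  have h2 : 2 * n * (finrank ℂ W' - 1) ≤ 2 * n * (finrank ℂ W - 1) :=
    Nat.mul_le_mul_left _ (by omega)
  omega

end Pool.Agent.Y910.P
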