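import Pool.Agent.Y910.P.P8

/-!
Very general points over a countable field.
-/

open MvPolynomial Finset Module

namespace Pool.Agent.Y910.P

open Pool.Agent.Y910.N

/-- the complex linear system spanned by polynomials with coefficients in `K` -/
noncomputable def sysK (K : Subfield ℂ) {N : ℕ} (w : Fin N → MvPolynomial (Fin 3) K) :
    Submodule ℂ (MvPolynomial (Fin 3) ℂ) :=
  Submodule.span ℂ (Set.range (fun k => map (algebraMap K ℂ) (w k)))

lemma finite_sysK (K : Subfield ℂ) {N : ℕ} (w : Fin N → MvPolynomial (Fin 3) K) :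
    FiniteDimensional ℂ (sysK K w) := FiniteDimensional.span_of_finite ℂ (Set.finite_range _)

lemma finrank_sysK (K : Subfield ℂ) {N : ℕ} (w : Fin N → MvPolynomial (Fin 3) K) :
    finrank ℂ (sysK K w) ≤ N := by
  have h1 := finrank_range_le_card (R := ℂ) (fun k => map (algebraMap K ℂ) (w k))
  rw [Fintype.card_fin] at h1
  exact h1

/-- very general points: all the systems defined over `K` at once -/
theorem very_general (n : ℕ) (K : Subfield ℂ) (hK : Countable K) :
    ∃ G : ℕ → MvPolynomial (Fin n × Fin 3) ℂ, (∀ l, G l ≠ 0) ∧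
      ∀ v : Fin n → Fin 3 → ℂ, (∀ l, eval (fun q : Fin n × Fin 3 => v q.1 q.2) (G l) ≠ 0) →
        ∀ (N : ℕ) (w : Fin N → MvPolynomial (Fin 3) K) (m : Fin n → ℕ),
          (∃ v' : Fin n → Fin 3 → ℂ, ∀ F ∈ sysK K w, (∀ i, MG (v' i) F (m i)) → F = 0) →
          ∀ F ∈ sysK K w, (∀ i, MG (v i) F (m i)) → F = 0 := by
  classical
  have hex : ∀ t : (Σ N : ℕ, (Fin N → MvPolynomial (Fin 3) K)) × (Fin n → ℕ),
      ∃ G : MvPolynomial (Fin n × Fin 3) ℂ, G ≠ 0 ∧
        ((∃ v' : Fin n → Fin 3 → ℂ, ∀ F ∈ sysK K t.1.2, (∀ i, MG (v' i) F (t.2 i)) → F = 0) →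
        ∀ v : Fin n → Fin 3 → ℂ, eval (fun q : Fin n × Fin 3 => v q.1 q.2) G ≠ 0 →
        ∀ F ∈ sysK K t.1.2, (∀ i, MG (v i) F (t.2 i)) → F = 0) := by
    rintro ⟨⟨N, w⟩, m⟩
    by_cases h : ∃ v' : Fin n → Fin 3 → ℂ, ∀ F ∈ sysK K w, (∀ i, MG (v' i) F (m i)) → F = 0
    · have := finite_sysK K w
      obtain ⟨G, hG, hG'⟩ := exists_genW (sysK K w) m h
      exact ⟨G, hG, fun _ => hG'⟩
    · exact ⟨1, one_ne_zero, fun h1 => absurd h1 h⟩
  choose g hg0 hg using hex
  have hcount : Countable (MvPolynomial (Fin 3) K) := by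
    rw [← Cardinal.mk_le_aleph0_iff]
    refine MvPolynomial.cardinalMk_le_max.trans ?_
    refine max_le (max_le ?_ ?_) le_rfl
    · exact Cardinal.mk_le_aleph0_iff.2 hK
    · exact Cardinal.mk_le_aleph0_iff.2 inferInstance
  obtain ⟨e, he⟩ := exists_surjective_nat
    ((Σ N : ℕ, (Fin N → MvPolynomial (Fin 3) K)) × (Fin n → ℕ))
  refine ⟨fun l => g (e l), fun l => hg0 _, ?_⟩
  intro v hv N w m hex F hF hm
  obtain ⟨l, hl⟩ := he (⟨N, w⟩, m)
  have hvl := hv l
  simp only at hvl
  rw [hl] at hvl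
  exact hg (⟨N, w⟩, m) hex v hvl F hF hm

/-- the `K`-span of the coefficients -/
noncomputable def cspan (K : Subfield ℂ) (F : MvPolynomial (Fin 3) ℂ) : Submodule K ℂ :=
  Submodule.span K (Set.range (fun a => coeff a F))

lemma cspan_eq (K : Subfield ℂ) (F : MvPolynomial (Fin 3) ℂ) :
    cspan K F = Submodule.span K (F.support.image (fun a => coeff a F) : Finset ℂ) := by
  apply le_antisymm
  · rw [cspan, Submodule.span_le]
    rintro _ ⟨a, rfl⟩
    by_cases ha : a ∈ F.support
    · apply Submodule.subset_span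
      rw [Finset.mem_coe, Finset.mem_image]
      exact ⟨a, ha, rfl⟩
    · simp only [notMem_support_iff.1 ha]
      exact Submodule.zero_mem _
  · rw [cspan]
    apply Submodule.span_mono
    intro z hz
    rw [Finset.mem_coe, Finset.mem_image] at hz
    obtain ⟨a, _, rfl⟩ := hz
    exact ⟨a, rfl⟩

lemma finite_cspan (K : Subfield ℂ) (F : MvPolynomial (Fin 3) ℂ) :
    FiniteDimensional K (cspan K F) := by
  rw [cspan_eq]
  exact FiniteDimensional.span_of_finite K (Finset.finite_toSet _)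

lemma finrank_cspan_le (K : Subfield ℂ) (F : MvPolynomial (Fin 3) ℂ) :
    finrank K (cspan K F) ≤ F.support.card := by
  rw [cspan_eq]
  exact (finrank_span_finset_le_card _).trans Finset.card_image_le

lemma finrank_cspan_pos (K : Subfield ℂ) {F : MvPolynomial (Fin 3) ℂ} (hF : F ≠ 0) :
    0 < finrank K (cspan K F) := by
  have := finite_cspan K F
  have h1 : 1 ≤ finrank K (cspan K F) := by
    rw [Submodule.one_le_finrank_iff, Submodule.ne_bot_iff]
    obtain ⟨a, ha⟩ := MvPolynomial.ne_zero_iff.1 hF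
    exact ⟨coeff a F, Submodule.subset_span ⟨a, rfl⟩, ha⟩
  exact h1

/-- a form is a combination of forms over `K`, as many as the dimension of the `K`-span of its
coefficients -/
theorem exists_sys (K : Subfield ℂ) {F : MvPolynomial (Fin 3) ℂ} {d : ℕ}
    (hFd : F.IsHomogeneous d) :
    ∃ w : Fin (finrank K (cspan K F)) → MvPolynomial (Fin 3) K, F ∈ sysK K w ∧
      sysK K w ≤ homogeneousSubmodule (Fin 3) ℂ d := by
  classical
  have hfd := finite_cspan K F
  let B := Module.finBasis K (cspan K F)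
  have hmem : ∀ a, coeff a F ∈ cspan K F := fun a => Submodule.subset_span ⟨a, rfl⟩
  obtain ⟨w, hw⟩ : ∃ w : Fin (finrank K (cspan K F)) → MvPolynomial (Fin 3) K, ∀ k,
      w k = ∑ a ∈ F.support, monomial a (B.repr ⟨coeff a F, hmem a⟩ k) := ⟨fun k => _, fun _ => rfl⟩
  have hmap : ∀ k, map (algebraMap K ℂ) (w k) = ∑ a ∈ F.support,
      monomial a ((B.repr ⟨coeff a F, hmem a⟩ k : K) : ℂ) := by
    intro k
    rw [hw, map_sum]
    apply Finset.sum_congr rfl
    intro a _
    rw [map_monomial]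
    rfl
  refine ⟨w, ?_, ?_⟩
  · have h1 : F = ∑ k, (B k : ℂ) • map (algebraMap K ℂ) (w k) := by
      simp only [hmap, Finset.smul_sum]
      rw [Finset.sum_comm]
      conv_lhs => rw [F.as_sum]
      apply Finset.sum_congr rfl
      intro a _
      have h2 : ((∑ k, B.repr ⟨coeff a F, hmem a⟩ k • B k : cspan K F) : ℂ) = coeff a F :=
        congrArg Subtype.val (B.sum_repr ⟨coeff a F, hmem a⟩)
      rw [Submodule.coe_sum] at h2
      conv_lhs => rw [← h2]
      rw [map_sum]
      apply Finset.sum_congr rfl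
      intro k _
      rw [smul_monomial, Submodule.coe_smul]
      congr 1
      rw [Subfield.smul_def, smul_eq_mul, smul_eq_mul, mul_comm]
    have h2 : ∑ k, (B k : ℂ) • map (algebraMap K ℂ) (w k) ∈ sysK K w :=
      Submodule.sum_mem _ (fun k _ =>
        Submodule.smul_mem _ _ (Submodule.subset_span ⟨k, rfl⟩))
    rwa [← h1] at h2
  · rw [sysK, Submodule.span_le]
    rintro _ ⟨k, rfl⟩
    rw [SetLike.mem_coe, mem_homogeneousSubmodule]
    simp only [hmap]
    apply IsHomogeneous.sum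
    intro a ha
    apply isHomogeneous_monomial
    have := hFd (MvPolynomial.mem_support_iff.1 ha)
    rw [← this, Finsupp.degree_eq_weight_one]
    rfl

end Pool.Agent.Y910.P
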